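import Pool.Agent.Helper65.PAC.Forms

/-!
# Project QF: Brauer's theorem over fields closed under radicals
-/

set_option autoImplicit false

namespace Pool.Agent.Helper38.PAC

open Finset Module
open Pool.Agent.Helper65.PAC (lin expand hom)

universe u v

/-- Closed under radicals. -/
def Rad (K : Type u) [Field K] : Prop := ∀ m : ℕ, m ≠ 0 → ∀ a : K, ∃ x : K, x ^ m = a

/-- Forms of degree `d` on subspaces of dimension at least `N` vanish on a subspace of dimension
at least `r`. -/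
def Van (K : Type u) [Field K] (d r N : ℕ) : Prop :=
  ∀ (V : Type v) [AddCommGroup V] [Module K V] [FiniteDimensional K V] (W : Submodule K V),
    N ≤ finrank K W → ∀ f ∈ (lin K V) ^ d, ∃ U : Submodule K V, U ≤ W ∧ r ≤ finrank K U ∧
      ∀ x ∈ U, f x = 0

variable {K : Type u} [Field K]

theorem van_system {D : ℕ} (h : ∀ d, 1 ≤ d → d < D → ∀ r, ∃ N, Van.{u, v} K d r N) (m r : ℕ) :
    ∃ N, ∀ (V : Type v) [AddCommGroup V] [Module K V] [FiniteDimensional K V]
      (W : Submodule K V), N ≤ finrank K W → ∀ (c : ℕ → V → K) (δ : ℕ → ℕ),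
      (∀ i < m, 1 ≤ δ i ∧ δ i < D ∧ c i ∈ (lin K V) ^ (δ i)) →
      ∃ U : Submodule K V, U ≤ W ∧ r ≤ finrank K U ∧ ∀ i < m, ∀ x ∈ U, c i x = 0 := by
  induction m with
  | zero =>
    refine ⟨r, fun V _ _ _ W hW c δ _ => ⟨W, le_rfl, hW, fun i hi => absurd hi (Nat.not_lt_zero _)⟩⟩
  | succ m ih =>
    obtain ⟨N1, h1⟩ := ih
    choose! N hN using fun d (hd : 1 ≤ d ∧ d < D) => h d hd.1 hd.2 N1
    refine ⟨(range D).sup N, fun V _ _ _ W hW c δ hc => ?_⟩
    obtain ⟨hδ1, hδ2, hcm⟩ := hc m (Nat.lt_succ_self _)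
    have hle : N (δ m) ≤ finrank K W :=
      (Finset.le_sup (f := N) (Finset.mem_range.mpr hδ2)).trans hW
    obtain ⟨U1, hU1, hU1r, hU1z⟩ := hN (δ m) ⟨hδ1, hδ2⟩ V W hle (c m) hcm
    obtain ⟨U, hU, hUr, hUz⟩ := h1 V U1 hU1r c δ (fun i hi => hc i (hi.trans (Nat.lt_succ_self _)))
    refine ⟨U, hU.trans hU1, hUr, fun i hi x hx => ?_⟩
    rcases Nat.lt_succ_iff_lt_or_eq.mp hi with hi' | rfl
    · exact hUz i hi' x hx
    · exact hU1z x (hU hx)

theorem finrank_inf_ker_le {V : Type v} [AddCommGroup V] [Module K V] [FiniteDimensional K V]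
    (W : Submodule K V) (φ : V →ₗ[K] K) :
    finrank K W ≤ finrank K (W ⊓ LinearMap.ker φ : Submodule K V) + 1 := by
  have h1 := Submodule.finrank_sup_add_finrank_inf_eq W (LinearMap.ker φ)
  have h2 := Helper65.PAC.finrank_ker_le (K := K) (V := V) φ
  have h3 : finrank K (W ⊔ LinearMap.ker φ : Submodule K V) ≤ finrank K V := Submodule.finrank_le _
  omega

theorem van_step {D : ℕ} (hD : 1 ≤ D) (h : ∀ d, 1 ≤ d → d < D → ∀ r, ∃ N, Van.{u, v} K d r N)
    (R : ℕ) : ∃ N, ∀ (V : Type v) [AddCommGroup V] [Module K V] [FiniteDimensional K V]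
      (W : Submodule K V), N ≤ finrank K W → ∀ f ∈ (lin K V) ^ D, ∀ x ∈ W, x ≠ 0 →
      ∃ U : Submodule K V, U ≤ W ∧ x ∉ U ∧ R ≤ finrank K U ∧
        ∀ (s : K), ∀ Q ∈ U, f (s • x + Q) = s ^ D * f x + f Q := by
  obtain ⟨N, hN⟩ := van_system h (D - 1) R
  refine ⟨N + 1, fun V _ _ _ W hW f hf x hx hx0 => ?_⟩
  obtain ⟨φ, hφ⟩ := Helper65.PAC.exists_fun (K := K) x hx0
  obtain ⟨c, h1, h2, h3, h4, h5⟩ := expand D hf x
  have hfr := finrank_inf_ker_le W φ
  obtain ⟨U, hU, hUr, hUz⟩ := hN V (W ⊓ LinearMap.ker φ) (by omega) (fun i => c (i + 1))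
    (fun i => D - (i + 1)) (fun i hi => ⟨by omega, by omega, h1 (i + 1) (by omega)⟩)
  refine ⟨U, hU.trans inf_le_left, fun hxU => ?_, hUr, fun s Q hQ => ?_⟩
  · have h6 : x ∈ LinearMap.ker φ := (hU hxU).2
    rw [LinearMap.mem_ker, hφ] at h6
    exact one_ne_zero h6
  · obtain ⟨D', rfl⟩ : ∃ D', D = D' + 1 := ⟨D - 1, by omega⟩
    rw [h5, Finset.sum_range_succ, Finset.sum_range_succ', h4, h3]
    have e : ∑ k ∈ range D', s ^ (k + 1) * c (k + 1) Q = 0 := by
      refine Finset.sum_eq_zero fun k hk => ?_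
      have h6 := hUz k (by simpa using hk) Q hQ
      rw [h6, mul_zero]
    rw [e]
    simp
    ring

theorem van_all (rad : Rad K) : ∀ d, 1 ≤ d → ∀ r, ∃ N, Van.{u, v} K d r N := by
  intro D
  induction D using Nat.strong_induction_on with
  | _ D ihD =>
    intro hD r
    have ih : ∀ d, 1 ≤ d → d < D → ∀ r, ∃ N, Van.{u, v} K d r N := fun d h1 h2 => ihD d h2 h1
    induction r with
    | zero =>
      refine ⟨0, fun V _ _ _ W _ f hf => ⟨⊥, bot_le, Nat.zero_le _, fun x hx => ?_⟩⟩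
      rw [(Submodule.mem_bot K).mp hx]
      have := hom D hf 0 0
      rw [smul_zero, zero_pow (by omega), zero_mul] at this
      exact this
    | succ r ihr =>
      obtain ⟨N0, hN0⟩ := ihr
      obtain ⟨N2, hN2⟩ := van_step hD ih N0
      obtain ⟨N1, hN1⟩ := van_step hD ih (N2 + 1)
      refine ⟨N1 + 1, fun V _ _ _ W hW f hf => ?_⟩
      obtain ⟨x1, hx1, hx10⟩ : ∃ x ∈ W, x ≠ 0 := by
        by_contra hcon
        push Not at hcon
        have : W = ⊥ := (Submodule.eq_bot_iff W).mpr hcon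
        rw [this, finrank_bot] at hW
        omega
      obtain ⟨V1, hV1, hxV1, hV1r, hV1f⟩ := hN1 V W (by omega) f hf x1 hx1 hx10
      obtain ⟨x2, hx2, hx20⟩ : ∃ x ∈ V1, x ≠ 0 := by
        by_contra hcon
        push Not at hcon
        have : V1 = ⊥ := (Submodule.eq_bot_iff V1).mpr hcon
        rw [this, finrank_bot] at hV1r
        omega
      obtain ⟨V2, hV2, hxV2, hV2r, hV2f⟩ := hN2 V V1 (by omega) f hf x2 hx2 hx20
      -- the coefficients
      obtain ⟨α, β, hαβ, hzero⟩ : ∃ α β : K, (α ≠ 0 ∨ β ≠ 0) ∧ α ^ D * f x1 + β ^ D * f x2 = 0 := by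
        by_cases h0 : f x2 = 0
        · exact ⟨0, 1, Or.inr one_ne_zero, by rw [h0, zero_pow (by omega)]; ring⟩
        · obtain ⟨β, hβ⟩ := rad D (by omega) (-f x1 / f x2)
          exact ⟨1, β, Or.inl one_ne_zero, by rw [hβ]; field_simp; ring⟩
      have hvW : α • x1 + β • x2 ∈ W := W.add_mem (W.smul_mem _ hx1) (W.smul_mem _ (hV1 hx2))
      have hvV2 : α • x1 + β • x2 ∉ V2 := by
        intro hmem
        by_cases hα : α = 0
        · have hβ : β ≠ 0 := by
            rcases hαβ with h | h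
            · exact absurd hα h
            · exact h
          rw [hα, zero_smul, zero_add] at hmem
          exact hxV2 ((Submodule.smul_mem_iff V2 hβ).mp hmem)
        · have h1 : α • x1 ∈ V1 := by
            have h2 := V1.sub_mem (hV2 hmem) (V1.smul_mem β hx2)
            rwa [add_sub_cancel_right] at h2
          exact hxV1 ((Submodule.smul_mem_iff V1 hα).mp h1)
      obtain ⟨U', hU', hU'r, hU'z⟩ := hN0 V V2 hV2r f hf
      generalize hv : α • x1 + β • x2 = v at hvW hvV2
      have hfv : ∀ (t : K), ∀ Q ∈ V2, f (t • v + Q) = f Q := by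
        intro t Q hQ
        have e1 : t • v + Q = (t * α) • x1 + ((t * β) • x2 + Q) := by
          rw [← hv, smul_add, smul_smul, smul_smul, add_assoc]
        have e2 : (t * β) • x2 + Q ∈ V1 := V1.add_mem (V1.smul_mem _ hx2) (hV2 hQ)
        rw [e1, hV1f _ _ e2, hV2f _ _ hQ, mul_pow, mul_pow]
        linear_combination t ^ D * hzero
      refine ⟨Submodule.span K {v} ⊔ U', ?_, ?_, ?_⟩
      · refine sup_le ?_ (hU'.trans (hV2.trans hV1))
        rw [Submodule.span_le]
        rintro _ rfl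
        exact hvW
      · have hv0 : v ≠ 0 := by
          rintro rfl
          exact hvV2 V2.zero_mem
        have hdis : Submodule.span K {v} ⊓ U' = ⊥ := by
          rw [Submodule.eq_bot_iff]
          rintro x ⟨hx1', hx2'⟩
          obtain ⟨a, rfl⟩ := Submodule.mem_span_singleton.mp hx1'
          by_contra hne
          have ha : a ≠ 0 := by
            rintro rfl
            exact hne (zero_smul _ _)
          exact hvV2 ((Submodule.smul_mem_iff V2 ha).mp (hU' hx2'))
        have h1 := Submodule.finrank_sup_add_finrank_inf_eq (Submodule.span K {v}) U'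
        rw [hdis, finrank_bot, finrank_span_singleton hv0] at h1
        omega
      · intro x hx
        obtain ⟨y, hy, z, hz, rfl⟩ := Submodule.mem_sup.mp hx
        obtain ⟨a, rfl⟩ := Submodule.mem_span_singleton.mp hy
        rw [hfv a z (hU' hz), hU'z z hz]

end Pool.Agent.Helper38.PAC
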