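import Pool.Agent.Helper38.PAC.VS

/-!
# Project QF: the perturbation lemma

`c_y (x) = T F j x y` is a form of degree `j` in `y` and `d - j` in `x ∈ Λ`.  If `2 j < d` and every
`c_y` has at most `k` essential variables on `Λ`, then all `c_y` vanish on one subspace of `Λ` of
codimension at most `k`, namely on the vertex space of a `c_{y₀}` with the largest number of
essential variables.
-/

set_option autoImplicit false

namespace Pool.Agent.Helper38.PAC

open Finset Module MvPolynomial

variable {K : Type*} [Field K] {n : ℕ}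

/-- The matrix `y ↦ (w ↦ (DT F j w (x a) y)_a)`. -/
noncomputable def DTL (F : MvPolynomial (Fin n) K) (j : ℕ) {X : Type*} (x : X → Fin n → K)
    (y : Fin n → K) : (Fin n → K) →ₗ[K] (X → K) where
  toFun w a := DT F j w (x a) y
  map_add' w w' := by
    funext a
    exact DT_add F j w w' (x a) y
  map_smul' c w := by
    funext a
    exact DT_smul F j c w (x a) y

/-- If the matrix on `W` is invertible then the vertex space at `y` is small. -/
theorem finrank_ker_le {F : MvPolynomial (Fin n) K} {j : ℕ} {Λ W : Submodule K (Fin n → K)}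
    (hW : W ≤ Λ) (b : Basis (Fin (finrank K W)) K W) (x : Fin (finrank K W) → (Fin n → K))
    (y : Fin n → K) (hdet : (Matrix.of fun a c => DT F j (b c : Fin n → K) (x a) y).det ≠ 0) :
    finrank K (Λ ⊓ LinearMap.ker (DTL F j x y) : Submodule K (Fin n → K)) + finrank K W
      ≤ finrank K Λ := by
  have hdis : (Λ ⊓ LinearMap.ker (DTL F j x y)) ⊓ W = ⊥ := by
    rw [Submodule.eq_bot_iff]
    rintro w ⟨⟨-, hw1⟩, hw2⟩
    have hw1' : ∀ a, DT F j w (x a) y = 0 := fun a => congrFun (LinearMap.mem_ker.mp hw1) a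
    let α := b.repr ⟨w, hw2⟩
    have hwe : w = ∑ c, α c • (b c : Fin n → K) := by
      calc w = ((∑ c, α c • b c : W) : Fin n → K) := by rw [b.sum_repr]
        _ = ∑ c, α c • (b c : Fin n → K) := by
          rw [Submodule.coe_sum]
          refine Finset.sum_congr rfl fun c _ => ?_
          rw [Submodule.coe_smul]
    have hM : (Matrix.of fun a c => DT F j (b c : Fin n → K) (x a) y).mulVec (fun c => α c) = 0 := by
      funext a
      have h1 : DTL F j x y w a = 0 := hw1' a
      rw [hwe, map_sum, Finset.sum_apply] at h1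
      rw [Pi.zero_apply, ← h1, Matrix.mulVec, dotProduct]
      refine Finset.sum_congr rfl fun c _ => ?_
      rw [map_smul, Pi.smul_apply, smul_eq_mul, mul_comm]
      rfl
    have hα : (fun c => α c) = 0 := by
      by_contra hne
      exact hdet (Matrix.exists_mulVec_eq_zero_iff.mp ⟨_, hne, hM⟩)
    rw [hwe]
    refine Finset.sum_eq_zero fun c _ => ?_
    rw [show α c = 0 from congrFun hα c, zero_smul]
  have h1 := Submodule.finrank_sup_add_finrank_inf_eq (Λ ⊓ LinearMap.ker (DTL F j x y)) W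
  rw [hdis, finrank_bot] at h1
  have h2 : (Λ ⊓ LinearMap.ker (DTL F j x y)) ⊔ W ≤ Λ := sup_le inf_le_left hW
  have h3 := Submodule.finrank_mono h2
  omega

theorem VS_le_ker {F : MvPolynomial (Fin n) K} {j : ℕ} {Λ : Submodule K (Fin n → K)}
    {X : Type*} (x : X → Fin n → K) (hx : ∀ a, x a ∈ Λ) (y : Fin n → K) :
    VS F j Λ y ≤ Λ ⊓ LinearMap.ker (DTL F j x y) := by
  rintro w ⟨hw, hw'⟩
  refine ⟨hw, LinearMap.mem_ker.mpr ?_⟩
  funext a
  exact hw' _ (hx a)

/-- Points for the vertex space at `y₀`. -/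
theorem exists_pts {F : MvPolynomial (Fin n) K} {j : ℕ} {Λ : Submodule K (Fin n → K)}
    (y₀ : Fin n → K) : ∃ W : Submodule K (Fin n → K), W ≤ Λ ∧
      finrank K W + finrank K (VS F j Λ y₀) = finrank K Λ ∧
      ∃ (b : Basis (Fin (finrank K W)) K W) (x : Fin (finrank K W) → (Fin n → K)),
        (∀ a, x a ∈ Λ) ∧
        (Matrix.of fun a c => DT F j (b c : Fin n → K) (x a) y₀).det ≠ 0 := by
  obtain ⟨C, hC⟩ := Submodule.exists_isCompl (VS F j Λ y₀)
  have hmod : VS F j Λ y₀ ⊔ (C ⊓ Λ) = Λ := by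
    rw [← sup_inf_assoc_of_le C (VS_le F j Λ y₀), hC.sup_eq_top, top_inf_eq]
  have hdis : VS F j Λ y₀ ⊓ (C ⊓ Λ) = ⊥ := by
    rw [← inf_assoc, hC.inf_eq_bot, bot_inf_eq]
  refine ⟨C ⊓ Λ, inf_le_right, ?_, ?_⟩
  · have h1 := Submodule.finrank_sup_add_finrank_inf_eq (VS F j Λ y₀) (C ⊓ Λ)
    rw [hdis, hmod, finrank_bot] at h1
    omega
  · obtain ⟨b, x, h⟩ := pts (C ⊓ Λ) (DTL F j (fun x : Λ => (x : Fin n → K)) y₀) (by
      rintro w ⟨hw1, hw2⟩ hw
      have h3 : w ∈ VS F j Λ y₀ := ⟨hw2, fun x hx => congrFun hw ⟨x, hx⟩⟩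
      have h4 : w ∈ VS F j Λ y₀ ⊓ (C ⊓ Λ) := ⟨h3, hw1, hw2⟩
      rw [hdis] at h4
      exact (Submodule.mem_bot K).mp h4)
    exact ⟨b, fun a => (x a : Fin n → K), fun a => (x a).2, h⟩

section Eps

/-- The direction `y + ε z`. -/
noncomputable def ye (y z : Fin n → K) (i : Fin n) : Polynomial K :=
  Polynomial.C (y i) + Polynomial.C (z i) * Polynomial.X

/-- Derivative functional over `K[ε]`. -/
noncomputable def DTP (F : MvPolynomial (Fin n) K) (j : ℕ) (w : Fin n → Polynomial K)
    (x : Fin n → K) (y z : Fin n → K) : Polynomial K :=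
  ∑ i, w i * T (pderiv i F) j (fun i => Polynomial.C (x i)) (ye y z)

theorem T_eval_eps (F : MvPolynomial (Fin n) K) (j : ℕ) (x : Fin n → Polynomial K)
    (y z : Fin n → K) (ε : K) :
    Polynomial.eval ε (T F j x (ye y z)) = T F j (fun i => Polynomial.eval ε (x i)) (y + ε • z) := by
  have h := T_map (Polynomial.aeval ε : Polynomial K →ₐ[K] K) F j x (ye y z)
  rw [Polynomial.coe_aeval_eq_eval] at h
  rw [h]
  congr 1
  funext i
  simp [ye]
  ring

theorem DTP_eval (F : MvPolynomial (Fin n) K) (j : ℕ) (w : Fin n → Polynomial K)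
    (x : Fin n → K) (y z : Fin n → K) (ε : K) :
    Polynomial.eval ε (DTP F j w x y z) = DT F j (fun i => Polynomial.eval ε (w i)) x (y + ε • z) := by
  rw [DTP, Polynomial.eval_finsetSum, DT]
  refine Finset.sum_congr rfl fun i _ => ?_
  rw [Polynomial.eval_mul, T_eval_eps]
  simp

variable [CharZero K]

theorem claim_aux {F : MvPolynomial (Fin n) K} {d j : ℕ} (hF : F.IsHomogeneous d)
    (hj : 2 * j < d) {Λ : Submodule K (Fin n → K)} (y₀ : Fin n → K)
    (hmin : ∀ y, finrank K (VS F j Λ y₀) ≤ finrank K (VS F j Λ y)) (z : Fin n → K)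
    {v : Fin n → K} (hv : v ∈ VS F j Λ y₀) : T F j v (y₀ + z) = 0 := by
  obtain ⟨W, hW, hWr, b, x, hx, hdet⟩ := exists_pts (F := F) (j := j) (Λ := Λ) y₀
  -- the matrix over `K[ε]`
  let M : Matrix (Fin (finrank K W)) (Fin (finrank K W)) (Polynomial K) :=
    Matrix.of fun a c => DTP F j (fun i => Polynomial.C ((b c : Fin n → K) i)) (x a) y₀ z
  have hMeval : ∀ ε : K, Polynomial.eval ε M.det
      = (Matrix.of fun a c => DT F j (b c : Fin n → K) (x a) (y₀ + ε • z)).det := by
    intro ε
    have := RingHom.map_det (Polynomial.evalRingHom ε) M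
    rw [Polynomial.coe_evalRingHom] at this
    rw [this]
    congr 1
    ext a c
    simp only [M, RingHom.mapMatrix_apply, Matrix.map_apply, Matrix.of_apply,
      Polynomial.coe_evalRingHom]
    rw [DTP_eval]
    simp
  have hδ0 : Polynomial.eval 0 M.det ≠ 0 := by
    rw [hMeval]
    simpa using hdet
  have hδ : M.det ≠ 0 := by
    intro h
    rw [h, Polynomial.eval_zero] at hδ0
    exact hδ0 rfl
  -- the right hand side
  have hq : ∀ a, ∃ q' : Polynomial K,
      DTP F j (fun i => Polynomial.C (v i)) (x a) y₀ z = Polynomial.X * q' := by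
    intro a
    have h1 : Polynomial.X ∣ DTP F j (fun i => Polynomial.C (v i)) (x a) y₀ z := by
      rw [Polynomial.X_dvd_iff, Polynomial.coeff_zero_eq_eval_zero, DTP_eval]
      have := hv.2 (x a) (hx a)
      simpa using this
    exact h1
  choose q' hq' using hq
  let u : Fin (finrank K W) → Polynomial K := M.adjugate.mulVec q'
  let w : Fin n → Polynomial K := fun i => ∑ c, u c * Polynomial.C ((b c : Fin n → K) i)
  -- the kernel vector
  have hker : ∀ a, DTP F j (fun i => M.det * Polynomial.C (v i) - Polynomial.X * w i) (x a) y₀ z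
      = 0 := by
    intro a
    have h1 : DTP F j (fun i => M.det * Polynomial.C (v i) - Polynomial.X * w i) (x a) y₀ z
        = M.det * DTP F j (fun i => Polynomial.C (v i)) (x a) y₀ z
          - Polynomial.X * (M.mulVec u) a := by
      rw [DTP, DTP, Matrix.mulVec, dotProduct, Finset.mul_sum, Finset.mul_sum]
      simp only [M, Matrix.of_apply, DTP, w, Finset.sum_mul, Finset.mul_sum]
      rw [Finset.sum_comm (s := (univ : Finset (Fin (finrank K W)))), ← Finset.sum_sub_distrib]
      refine Finset.sum_congr rfl fun i _ => ?_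
      rw [sub_mul, Finset.sum_mul]
      congr 1
      · ring
      · refine Finset.sum_congr rfl fun c _ => ?_
        ring
    have h2 : M.mulVec u = M.det • q' := by
      show M.mulVec (M.adjugate.mulVec q') = M.det • q'
      rw [Matrix.mulVec_mulVec, Matrix.mul_adjugate, Matrix.smul_mulVec, Matrix.one_mulVec]
    rw [h1, h2, hq' a, Pi.smul_apply, smul_eq_mul]
    ring
  -- specialisation
  have hspec : ∀ ε : K, Polynomial.eval ε M.det ≠ 0 →
      T F j (fun i => Polynomial.eval ε (M.det * Polynomial.C (v i))) (y₀ + ε • z)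
        = T F j (fun i => Polynomial.eval ε (Polynomial.X * w i)) (y₀ + ε • z) := by
    intro ε hε
    have hdetε := hε
    rw [hMeval] at hdetε
    have hfr := finrank_ker_le (Λ := Λ) hW b x (y₀ + ε • z) hdetε
    have hle := VS_le_ker (F := F) (j := j) (Λ := Λ) x hx (y₀ + ε • z)
    have heq : VS F j Λ (y₀ + ε • z) = Λ ⊓ LinearMap.ker (DTL F j x (y₀ + ε • z)) := by
      apply Submodule.eq_of_le_of_finrank_le hle
      have := hmin (y₀ + ε • z)
      omega
    have hwΛ : (fun i => Polynomial.eval ε (Polynomial.X * w i)) ∈ Λ := by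
      have e1 : (fun i => Polynomial.eval ε (Polynomial.X * w i))
          = ε • ∑ c, Polynomial.eval ε (u c) • (b c : Fin n → K) := by
        funext i
        simp [w, Polynomial.eval_finsetSum]
      rw [e1]
      exact Λ.smul_mem _ (Λ.sum_mem fun c _ => Λ.smul_mem _ (hW (b c).2))
    have hvΛ : (fun i => Polynomial.eval ε (M.det * Polynomial.C (v i))) ∈ Λ := by
      have e1 : (fun i => Polynomial.eval ε (M.det * Polynomial.C (v i)))
          = Polynomial.eval ε M.det • v := by
        funext i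
        simp
      rw [e1]
      exact Λ.smul_mem _ hv.1
    have hmem : (fun i => Polynomial.eval ε (M.det * Polynomial.C (v i)))
        - (fun i => Polynomial.eval ε (Polynomial.X * w i)) ∈ VS F j Λ (y₀ + ε • z) := by
      rw [heq]
      refine ⟨Λ.sub_mem hvΛ hwΛ, LinearMap.mem_ker.mpr ?_⟩
      funext a
      have h1 := congrArg (Polynomial.eval ε) (hker a)
      rw [DTP_eval, Polynomial.eval_zero] at h1
      have h2 : (fun i => Polynomial.eval ε (M.det * Polynomial.C (v i)))
        - (fun i => Polynomial.eval ε (Polynomial.X * w i))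
        = (fun i => Polynomial.eval ε (M.det * Polynomial.C (v i) - Polynomial.X * w i)) := by
        funext i
        simp
      rw [h2]
      exact h1
    have h3 := VS_inv hmem hwΛ
    rw [add_sub_cancel] at h3
    exact h3
  -- polynomial identity
  have hpoly : T F j (fun i => M.det * Polynomial.C (v i)) (ye y₀ z)
      = T F j (fun i => Polynomial.X * w i) (ye y₀ z) := by
    apply Polynomial.eq_of_infinite_eval_eq
    have hfin : ({ε | Polynomial.eval ε M.det = 0} : Set K).Finite :=
      Polynomial.finite_setOfPred_isRoot hδ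
    refine (hfin.infinite_compl).mono fun ε hε => ?_
    show Polynomial.eval ε _ = Polynomial.eval ε _
    rw [T_eval_eps, T_eval_eps]
    exact hspec ε hε
  have hjd : j ≤ d := by omega
  rw [T_hom' hF hjd _ _ hδ, T_hom' hF hjd _ _ Polynomial.X_ne_zero] at hpoly
  have hdvd : Polynomial.X ^ (d - j) ∣ T F j (fun i => Polynomial.C (v i)) (ye y₀ z) := by
    have hnd : ¬ (Polynomial.X : Polynomial K) ∣ M.det ^ (d - j) := by
      intro h
      have := Polynomial.prime_X.dvd_of_dvd_pow h
      rw [Polynomial.X_dvd_iff, Polynomial.coeff_zero_eq_eval_zero] at this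
      exact hδ0 this
    exact Polynomial.prime_X.pow_dvd_of_dvd_mul_left _ hnd ⟨_, hpoly⟩
  have hdeg := T_deg F j v y₀ z
  have hzero : T F j (fun i => Polynomial.C (v i)) (ye y₀ z) = 0 := by
    apply Polynomial.eq_zero_of_dvd_of_natDegree_lt hdvd
    rw [Polynomial.natDegree_X_pow]
    have : (T F j (fun i => Polynomial.C (v i)) (ye y₀ z)).natDegree ≤ j := hdeg
    omega
  have hfinal := congrArg (Polynomial.eval 1) hzero
  rw [T_eval_eps, Polynomial.eval_zero, one_smul] at hfinal
  simpa using hfinal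

/-- The perturbation lemma. -/
theorem claim {F : MvPolynomial (Fin n) K} {d j k : ℕ} (hF : F.IsHomogeneous d)
    (hj : 2 * j < d) {Λ : Submodule K (Fin n → K)}
    (h : ∀ y, finrank K Λ ≤ finrank K (VS F j Λ y) + k) :
    ∃ N : Submodule K (Fin n → K), N ≤ Λ ∧ finrank K Λ ≤ finrank K N + k ∧
      ∀ y, ∀ v ∈ N, T F j v y = 0 := by
  obtain ⟨y₀, hy₀⟩ : ∃ y₀, ∀ y, finrank K (VS F j Λ y₀) ≤ finrank K (VS F j Λ y) := by
    obtain ⟨m, ⟨y₀, rfl⟩, hmin⟩ := wellFounded_lt.has_min
      (Set.range fun y => finrank K (VS F j Λ y)) ⟨_, 0, rfl⟩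
    exact ⟨y₀, fun y => not_lt.mp (hmin _ ⟨y, rfl⟩)⟩
  refine ⟨VS F j Λ y₀, VS_le F j Λ y₀, h y₀, fun y v hv => ?_⟩
  have := claim_aux hF hj y₀ hy₀ (y - y₀) hv
  rwa [add_sub_cancel] at this

end Eps

end Pool.Agent.Helper38.PAC
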