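import Pool.Agent.Helper65.PAC.Dense

/-!
# Project QF (MP_a7256b_nt): forms of degree at most 9 over fields closed under radicals

Taylor coefficients `T F j x y` = the coefficient of `s^j` in `F (x + s y)`, over any commutative
`K`-algebra.
-/

set_option autoImplicit false

namespace Pool.Agent.Helper38.PAC

open Finset Module MvPolynomial

section T

variable {K : Type*} [Field K] {n : ℕ} {A : Type*} [CommRing A] [Algebra K A]

/-- The point `x + s y` over `A[s]`. -/
noncomputable def pt (x y : Fin n → A) (i : Fin n) : Polynomial A :=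
  Polynomial.C (x i) + Polynomial.C (y i) * Polynomial.X

/-- The polynomial `F (x + s y)` in `s`. -/
noncomputable def TP (F : MvPolynomial (Fin n) K) (x y : Fin n → A) : Polynomial A :=
  aeval (pt x y) F

/-- The coefficient of `s^j` in `F (x + s y)`. -/
noncomputable def T (F : MvPolynomial (Fin n) K) (j : ℕ) (x y : Fin n → A) : A :=
  (TP F x y).coeff j

theorem TP_eval (F : MvPolynomial (Fin n) K) (x y : Fin n → A) (s : A) :
    Polynomial.eval s (TP F x y) = aeval (fun i => x i + y i * s) F := by
  have h : ((Polynomial.aeval s : Polynomial A →ₐ[A] A).restrictScalars K).comp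
      (aeval (pt x y) : MvPolynomial (Fin n) K →ₐ[K] Polynomial A)
      = (aeval (fun i => x i + y i * s) : MvPolynomial (Fin n) K →ₐ[K] A) := by
    apply MvPolynomial.algHom_ext
    intro i
    simp [pt]
  have := congrArg (fun f : MvPolynomial (Fin n) K →ₐ[K] A => f F) h
  simpa [TP] using this

/-- Functoriality. -/
theorem T_map {B : Type*} [CommRing B] [Algebra K B] (φ : A →ₐ[K] B)
    (F : MvPolynomial (Fin n) K) (j : ℕ) (x y : Fin n → A) :
    φ (T F j x y) = T F j (fun i => φ (x i)) (fun i => φ (y i)) := by
  have h : (Polynomial.mapAlgHom φ).comp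
      (aeval (pt x y) : MvPolynomial (Fin n) K →ₐ[K] Polynomial A)
      = (aeval (pt (fun i => φ (x i)) (fun i => φ (y i))) :
          MvPolynomial (Fin n) K →ₐ[K] Polynomial B) := by
    apply MvPolynomial.algHom_ext
    intro i
    simp [pt]
  have := congrArg (fun f : MvPolynomial (Fin n) K →ₐ[K] Polynomial B => (f F).coeff j) h
  simpa [T, TP] using this

theorem T_add (F G : MvPolynomial (Fin n) K) (j : ℕ) (x y : Fin n → A) :
    T (F + G) j x y = T F j x y + T G j x y := by
  simp [T, TP]

theorem T_smul (c : K) (F : MvPolynomial (Fin n) K) (j : ℕ) (x y : Fin n → A) :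
    T (C c * F) j x y = algebraMap K A c * T F j x y := by
  simp [T, TP, IsScalarTower.algebraMap_apply K A (Polynomial A)]

theorem T_zero_index (F : MvPolynomial (Fin n) K) (x y : Fin n → A) :
    T F 0 x y = aeval x F := by
  have h := TP_eval F x y 0
  rw [← Polynomial.coeff_zero_eq_eval_zero] at h
  simpa [T] using h

/-- Scaling of the direction. -/
theorem T_smul_right (F : MvPolynomial (Fin n) K) (j : ℕ) (x y : Fin n → A) (a : A) :
    T F j x (fun i => a * y i) = a ^ j * T F j x y := by
  have h : ((Polynomial.aeval (Polynomial.C a * Polynomial.X) :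
        Polynomial A →ₐ[A] Polynomial A).restrictScalars K).comp
      (aeval (pt x y) : MvPolynomial (Fin n) K →ₐ[K] Polynomial A)
      = (aeval (pt x (fun i => a * y i)) : MvPolynomial (Fin n) K →ₐ[K] Polynomial A) := by
    apply MvPolynomial.algHom_ext
    intro i
    simp [pt]
    ring
  have := congrArg (fun f : MvPolynomial (Fin n) K →ₐ[K] Polynomial A => (f F).coeff j) h
  simp only [AlgHom.comp_apply, AlgHom.restrictScalars_apply] at this
  rw [T, TP, ← this, T, TP]
  have e : ∀ p : Polynomial A, Polynomial.aeval (Polynomial.C a * Polynomial.X) p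
      = p.comp (Polynomial.C a * Polynomial.X) := fun p => rfl
  rw [e, Polynomial.comp_C_mul_X_coeff, mul_comm]

theorem aeval_smul {B : Type*} [CommRing B] [Algebra K B] {F : MvPolynomial (Fin n) K} {d : ℕ}
    (hF : F.IsHomogeneous d) (a : B) (g : Fin n → B) :
    aeval (fun i => a * g i) F = a ^ d * aeval g F := by
  rw [aeval_def, aeval_def, eval₂_eq, eval₂_eq, Finset.mul_sum]
  refine Finset.sum_congr rfl fun m hm => ?_
  have hd : ∑ i ∈ m.support, m i = d := by
    have := hF (MvPolynomial.mem_support_iff.mp hm)
    rw [Finsupp.weight_apply] at this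
    simpa [Finsupp.sum] using this
  simp only [mul_pow]
  rw [Finset.prod_mul_distrib, Finset.prod_pow_eq_pow_sum, hd]
  ring

/-- Homogeneity. -/
theorem T_hom {F : MvPolynomial (Fin n) K} {d : ℕ} (hF : F.IsHomogeneous d) (j : ℕ)
    (x y : Fin n → A) (a : A) :
    a ^ j * T F j (fun i => a * x i) y = a ^ d * T F j x y := by
  rw [← T_smul_right]
  have h : TP F (fun i => a * x i) (fun i => a * y i) = Polynomial.C (a ^ d) * TP F x y := by
    rw [TP, TP, map_pow, ← aeval_smul hF]
    congr 1
    congr 1
    funext i
    simp [pt]
    ring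
  rw [T, h, Polynomial.coeff_C_mul, T]

theorem T_hom' [IsDomain A] {F : MvPolynomial (Fin n) K} {d : ℕ} (hF : F.IsHomogeneous d) {j : ℕ}
    (hj : j ≤ d) (x y : Fin n → A) {a : A} (ha : a ≠ 0) :
    T F j (fun i => a * x i) y = a ^ (d - j) * T F j x y := by
  have h := T_hom hF j x y a
  have e : a ^ d = a ^ j * a ^ (d - j) := by rw [← pow_add]; congr 1; omega
  rw [e, mul_assoc] at h
  exact mul_left_cancel₀ (pow_ne_zero _ ha) h

/-- No Taylor coefficients above the degree. -/
theorem T_gt {F : MvPolynomial (Fin n) K} {j : ℕ} (hj : F.totalDegree < j)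
    (x y : Fin n → A) : T F j x y = 0 := by
  have h : (TP F x y).natDegree ≤ F.totalDegree := by
    rw [TP, aeval_def, eval₂_eq]
    refine Polynomial.natDegree_sum_le_of_forall_le _ _ fun m hm => ?_
    refine (Polynomial.natDegree_mul_le).trans ?_
    have h1 : (algebraMap K (Polynomial A) (coeff m F)).natDegree = 0 := by
      rw [IsScalarTower.algebraMap_apply K A (Polynomial A), Polynomial.algebraMap_eq]
      exact Polynomial.natDegree_C _
    rw [h1, zero_add]
    refine (Polynomial.natDegree_prod_le _ _).trans ?_
    have h2 : ∑ i ∈ m.support, m i ≤ F.totalDegree := by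
      have := le_totalDegree hm
      simpa [Finsupp.sum] using this
    refine le_trans (Finset.sum_le_sum fun i _ => ?_) h2
    refine (Polynomial.natDegree_pow_le).trans ?_
    have h3 : (pt x y i).natDegree ≤ 1 := by
      rw [pt]
      compute_degree
    calc m i * (pt x y i).natDegree ≤ m i * 1 := Nat.mul_le_mul_left _ h3
      _ = m i := mul_one _
  exact Polynomial.coeff_eq_zero_of_natDegree_lt (lt_of_le_of_lt h hj)

/-- Expansion. -/
theorem T_expand {F : MvPolynomial (Fin n) K} {d : ℕ} (hF : F.totalDegree ≤ d)
    (x y : Fin n → A) (s : A) :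
    aeval (fun i => x i + y i * s) F = ∑ j ∈ range (d + 1), T F j x y * s ^ j := by
  rw [← TP_eval, Polynomial.eval_eq_sum_range' (n := d + 1)]
  · rfl
  · rw [Nat.lt_succ_iff, Polynomial.natDegree_le_iff_coeff_eq_zero]
    intro N hN
    exact T_gt (lt_of_le_of_lt hF hN) x y

/-- The coefficient of `X i` times a polynomial. -/
theorem T_mul_X (F : MvPolynomial (Fin n) K) (i : Fin n) (j : ℕ) (x y : Fin n → A) :
    T (F * X i) j x y = T F j x y * x i + (if j = 0 then 0 else T F (j - 1) x y * y i) := by
  simp only [T, TP, map_mul, aeval_X, pt, mul_add, Polynomial.coeff_add]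
  rw [Polynomial.coeff_mul_C]
  congr 1
  rw [← mul_assoc]
  cases j with
  | zero => simp
  | succ j => simp [Polynomial.coeff_mul_X]

end T

section Eps

variable {K : Type*} [Field K] {n : ℕ}

/-- Along a line of directions `y + t z` the coefficient of `s^j` has degree at most `j`. -/
theorem T_deg (F : MvPolynomial (Fin n) K) (j : ℕ) (x y z : Fin n → K) :
    (T F j (fun i => Polynomial.C (x i))
      (fun i => Polynomial.C (y i) + Polynomial.C (z i) * Polynomial.X)).natDegree ≤ j := by
  induction F using MvPolynomial.induction_on generalizing j with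
  | C a =>
    rw [T, TP, algHom_C]
    rw [IsScalarTower.algebraMap_apply K (Polynomial K) (Polynomial (Polynomial K)),
      Polynomial.algebraMap_eq, Polynomial.coeff_C]
    split_ifs with h
    · rw [Polynomial.algebraMap_eq, Polynomial.natDegree_C]
      exact Nat.zero_le _
    · simp
  | add p q hp hq =>
    rw [T_add]
    exact (Polynomial.natDegree_add_le _ _).trans (max_le (hp j) (hq j))
  | mul_X p i hp =>
    rw [T_mul_X]
    refine (Polynomial.natDegree_add_le _ _).trans (max_le ?_ ?_)
    · refine (Polynomial.natDegree_mul_le).trans ?_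
      rw [Polynomial.natDegree_C]
      exact hp j
    · split_ifs with h
      · simp
      · refine (Polynomial.natDegree_mul_le).trans ?_
        have h1 := hp (j - 1)
        have h2 : (Polynomial.C (y i) + Polynomial.C (z i) * Polynomial.X).natDegree ≤ 1 := by
          compute_degree
        omega

/-- Chain rule. -/
theorem T_deriv (F : MvPolynomial (Fin n) K) (j : ℕ) (x v y : Fin n → K) :
    Polynomial.derivative (T F j (fun i => Polynomial.C (x i) + Polynomial.C (v i) * Polynomial.X)
        (fun i => Polynomial.C (y i)))
      = ∑ k, Polynomial.C (v k) * T (pderiv k F) j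
          (fun i => Polynomial.C (x i) + Polynomial.C (v i) * Polynomial.X)
          (fun i => Polynomial.C (y i)) := by
  induction F using MvPolynomial.induction_on generalizing j with
  | C a =>
    have h0 : ∀ k, pderiv k (C a : MvPolynomial (Fin n) K) = 0 := fun k => pderiv_C
    have h1 : ∀ (x' y' : Fin n → Polynomial K), T (0 : MvPolynomial (Fin n) K) j x' y' = 0 := by
      intro x' y'
      simp [T, TP]
    simp only [h0, h1, mul_zero, Finset.sum_const_zero]
    rw [T, TP, algHom_C]
    rw [IsScalarTower.algebraMap_apply K (Polynomial K) (Polynomial (Polynomial K)),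
      Polynomial.algebraMap_eq, Polynomial.coeff_C]
    split_ifs with h
    · rw [Polynomial.algebraMap_eq, Polynomial.derivative_C]
    · simp
  | add p q hp hq =>
    rw [T_add, map_add, hp, hq, ← Finset.sum_add_distrib]
    refine Finset.sum_congr rfl fun k _ => ?_
    rw [map_add, T_add]
    ring
  | mul_X p i hp =>
    have e : ∀ k, pderiv k (p * X i) = pderiv k p * X i + C (if k = i then 1 else 0) * p := by
      intro k
      rw [Derivation.leibniz, pderiv_X, smul_eq_mul, smul_eq_mul, Pi.single_apply]
      split_ifs with h1 h2 h2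
      · rw [C_1]; ring
      · exact absurd h1.symm h2
      · exact absurd h2.symm h1
      · rw [C_0]; ring
    simp only [e, T_add, T_smul, T_mul_X]
    rw [map_add, Polynomial.derivative_mul, hp]
    have e2 : Polynomial.derivative (Polynomial.C (x i) + Polynomial.C (v i) * Polynomial.X)
        = Polynomial.C (v i) := by simp
    rw [e2]
    have e3 : ∀ (P : Fin n → Polynomial K) (Q : Polynomial K), ∑ k, Polynomial.C (v k) *
        (P k + algebraMap K (Polynomial K) (if k = i then 1 else 0) * Q)
        = ∑ k, Polynomial.C (v k) * P k + Polynomial.C (v i) * Q := by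
      intro P Q
      simp only [mul_add, Finset.sum_add_distrib]
      congr 1
      rw [Finset.sum_eq_single i]
      · simp
      · intro b _ hb
        simp [hb]
      · simp
    rw [e3]
    cases j with
    | zero =>
      simp [Finset.sum_mul, mul_assoc]
      ring
    | succ j =>
      simp only [Nat.succ_ne_zero, if_false, Nat.succ_sub_one]
      rw [Polynomial.derivative_mul, hp, Polynomial.derivative_C, mul_zero, add_zero]
      simp only [mul_add, Finset.sum_add_distrib, Finset.sum_mul]
      simp only [mul_assoc]
      ring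

end Eps

section Shift

variable {K : Type*} [Field K] [Infinite K] {n : ℕ}

/-- The coefficients of helper65's `shift`. -/
theorem eval_coeff_shift (x Q : Fin n → K) (i : ℕ) (F : MvPolynomial (Fin n) K) :
    eval Q ((Helper65.PAC.shift x F).coeff i) = T F i Q x := by
  have h : (Helper65.PAC.shift x F).map (eval Q) = TP F Q x := by
    apply Polynomial.funext
    intro s
    rw [Helper65.PAC.eval_shift, TP_eval]
    have e : (fun i => Q i + x i * s) = s • x + Q := by
      funext i
      simp
      ring
    rw [e]
    rfl
  rw [T, ← h, Polynomial.coeff_map]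

/-- Reversal. -/
theorem T_rev {F : MvPolynomial (Fin n) K} {d : ℕ} (hF : F.IsHomogeneous d) (i : ℕ) (hi : i ≤ d)
    (x y : Fin n → K) : T F i x y = T F (d - i) y x := by
  have hdeg : F.totalDegree ≤ d := hF.totalDegree_le
  have h : TP F x y = ∑ k ∈ range (d + 1), Polynomial.C (T F (d - k) y x) * Polynomial.X ^ k := by
    apply Polynomial.eq_of_infinite_eval_eq
    have hinf : Set.Infinite ({0}ᶜ : Set K) := Set.Finite.infinite_compl (Set.finite_singleton 0)
    refine hinf.mono fun s hs => ?_
    have hs0 : s ≠ 0 := hs
    show Polynomial.eval s _ = Polynomial.eval s _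
    rw [TP_eval, Polynomial.eval_finsetSum]
    have e1 : aeval (fun i => x i + y i * s) F = s ^ d * aeval (fun i => y i + x i * s⁻¹) F := by
      rw [← aeval_smul hF]
      congr 1
      congr 1
      funext i
      field_simp
      ring
    rw [e1, T_expand hdeg, Finset.mul_sum, ← Finset.sum_range_reflect]
    refine Finset.sum_congr rfl fun k hk => ?_
    have hk' : k ≤ d := by
      have := Finset.mem_range.mp hk
      omega
    have e2 : d + 1 - 1 - k = d - k := by omega
    rw [e2]
    simp only [Polynomial.eval_mul, Polynomial.eval_C, Polynomial.eval_pow, Polynomial.eval_X]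
    have e3 : s ^ d = s ^ k * s ^ (d - k) := by rw [← pow_add]; congr 1; omega
    rw [e3, inv_pow]
    field_simp
  have e := congrArg (fun p => Polynomial.coeff p i) h
  simp only [Polynomial.finsetSum_coeff, Polynomial.coeff_C_mul, Polynomial.coeff_X_pow] at e
  rw [Finset.sum_eq_single i] at e
  · simpa [T] using e
  · intro b _ hb
    rw [if_neg (Ne.symm hb), mul_zero]
  · intro hni
    exact absurd (Finset.mem_range.mpr (by omega)) hni

end Shift

end Pool.Agent.Helper38.PAC
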