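import Pool.Agent.Helper38.PAC.Sec

/-!
# Project QF: factors of a form of degree at most 9
-/

set_option autoImplicit false

namespace Pool.Agent.Helper38.PAC

open Finset Module MvPolynomial
open Pool.Agent.Helper65.PAC (shift shiftE Rt)

variable {K : Type*} [Field K] [Infinite K] {m : ℕ}

theorem natDegree_shift_le (p : Fin m → K) (B : MvPolynomial (Fin m) K) :
    (shift p B).natDegree ≤ B.totalDegree := by
  rw [Polynomial.natDegree_le_iff_coeff_eq_zero]
  intro N hN
  apply MvPolynomial.funext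
  intro Q
  rw [eval_coeff_shift, T_gt hN, map_zero]

theorem le_natDegree_shift {R : MvPolynomial (Fin m) K} {e : ℕ} (hR : R.IsHomogeneous e)
    (p : Fin m → K) (hp : eval p R ≠ 0) : e ≤ (shift p R).natDegree := by
  apply Polynomial.le_natDegree_of_ne_zero
  intro h
  apply hp
  have h1 : eval (0 : Fin m → K) ((shift p R).coeff e) = 0 := by rw [h, map_zero]
  rw [eval_coeff_shift, T_rev hR e le_rfl, Nat.sub_self, T_zero_index] at h1
  exact h1

theorem totalDegree_pos_of_irreducible {ρ : MvPolynomial (Fin m) K} (h : Irreducible ρ) :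
    ρ.totalDegree ≠ 0 := by
  intro h0
  have hc := (totalDegree_eq_zero_iff_eq_C).mp h0
  by_cases hc0 : ρ.coeff 0 = 0
  · apply h.ne_zero
    rw [hc, hc0, C_0]
  · apply h.not_isUnit
    rw [hc]
    exact (isUnit_iff_ne_zero.mpr hc0).map C

theorem natDegree_shift_factor {R ρ : MvPolynomial (Fin m) K} {e : ℕ} (hR : R.IsHomogeneous e)
    (p : Fin m → K) (hp : eval p R ≠ 0) (hρ : Irreducible ρ) (hd : ρ ∣ R) :
    (shift p ρ).natDegree ≠ 0 := by
  obtain ⟨B, hB⟩ := hd
  have hR0 : R ≠ 0 := by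
    rintro rfl
    simp at hp
  have hB0 : B ≠ 0 := by
    rintro rfl
    exact hR0 (by rw [hB, mul_zero])
  have h1 := le_natDegree_shift hR p hp
  have h2 : (shift p R).natDegree = (shift p ρ).natDegree + (shift p B).natDegree := by
    rw [hB, map_mul, Polynomial.natDegree_mul]
    · exact (Helper65.PAC.shift_prime p hρ).ne_zero
    · rw [← Helper65.PAC.shiftE_C]
      simpa using hB0
  have h3 := natDegree_shift_le p B
  have h4 : R.totalDegree = ρ.totalDegree + B.totalDegree := by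
    rw [hB, totalDegree_mul_of_isDomain hρ.ne_zero hB0]
  have h5 : R.totalDegree = e := hR.totalDegree hR0
  have h6 := totalDegree_pos_of_irreducible hρ
  omega

theorem fac {R : MvPolynomial (Fin m) K} {e : ℕ} (hR : R.IsHomogeneous e) (he1 : 1 ≤ e)
    (he9 : e ≤ 9) (p : Fin m → K) (hp : eval p R ≠ 0) :
    ∃ ρ, Irreducible ρ ∧ ρ ∣ R ∧ (shift p ρ).natDegree ≠ 0 ∧ (ρ.totalDegree ≤ 4 ∨ ρ = R) := by
  have hR0 : R ≠ 0 := by
    rintro rfl
    simp at hp
  have hRd : R.totalDegree = e := hR.totalDegree hR0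
  have hRu : ¬ IsUnit R := by
    intro hu
    have h1 : R.totalDegree = 0 := by
      obtain ⟨c, hc⟩ := MvPolynomial.isUnit_iff_eq_C_of_isReduced.mp hu
      rw [hc.2, totalDegree_C]
    omega
  obtain ⟨ρ, hρ, B, hB⟩ := WfDvdMonoid.exists_irreducible_factor hRu hR0
  have hB0 : B ≠ 0 := by
    rintro rfl
    exact hR0 (by rw [hB, mul_zero])
  have h4 : R.totalDegree = ρ.totalDegree + B.totalDegree := by
    rw [hB, totalDegree_mul_of_isDomain hρ.ne_zero hB0]
  by_cases h5 : ρ.totalDegree ≤ 4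
  · exact ⟨ρ, hρ, ⟨B, hB⟩, natDegree_shift_factor hR p hp hρ ⟨B, hB⟩, Or.inl h5⟩
  · by_cases hBu : IsUnit B
    · have hRi : Irreducible R := by
        rw [hB]
        exact (irreducible_mul_isUnit hBu).mpr hρ
      exact ⟨R, hRi, dvd_rfl, natDegree_shift_factor hR p hp hRi dvd_rfl, Or.inr rfl⟩
    · obtain ⟨ρ', hρ', B', hB'⟩ := WfDvdMonoid.exists_irreducible_factor hBu hB0
      have hd : ρ' ∣ R := ⟨ρ * B', by rw [hB, hB']; ring⟩
      have hB'0 : B' ≠ 0 := by
        rintro rfl
        exact hB0 (by rw [hB', mul_zero])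
      have h6 : B.totalDegree = ρ'.totalDegree + B'.totalDegree := by
        rw [hB', totalDegree_mul_of_isDomain hρ'.ne_zero hB'0]
      exact ⟨ρ', hρ', hd, natDegree_shift_factor hR p hp hρ' hd, Or.inl (by omega)⟩

end Pool.Agent.Helper38.PAC
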