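import Pool.Agent.Helper38.PAC.Sec

/-!
# Project QF: the residual form on `Λ ⊕ K y`
-/

set_option autoImplicit false

namespace Pool.Agent.Helper38.PAC

open Finset Module MvPolynomial

variable {K : Type*} [Field K] [Infinite K] {n : ℕ}

/-- The parametrisation `(s, c) ↦ s y + ∑ c_a b_a` of `Λ + K y`. -/
noncomputable def iot {Λ : Submodule K (Fin n → K)} (b : Basis (Fin (finrank K Λ)) K Λ)
    (y : Fin n → K) : (Fin (finrank K Λ + 1) → K) →ₗ[K] (Fin n → K) where
  toFun c := c 0 • y + ∑ a, c (Fin.succ a) • (b a : Fin n → K)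
  map_add' c c' := by
    simp only [Pi.add_apply, add_smul, Finset.sum_add_distrib]
    abel
  map_smul' t c := by
    simp only [Pi.smul_apply, smul_eq_mul, mul_smul, smul_add, Finset.smul_sum, RingHom.id_apply]

theorem iot_cons {Λ : Submodule K (Fin n → K)} (b : Basis (Fin (finrank K Λ)) K Λ)
    (y : Fin n → K) (s : K) (c : Fin (finrank K Λ) → K) :
    iot b y (Fin.cons s c) = s • y + ∑ a, c a • (b a : Fin n → K) := by
  simp [iot]

theorem pull_hom {m d : ℕ} (ι : (Fin m → K) →ₗ[K] (Fin n → K)) {F : MvPolynomial (Fin n) K}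
    (hF : F.IsHomogeneous d) : (pull ι F).IsHomogeneous d := by
  have h := hF.aeval (fun i => ∑ b, C (ι (Pi.single b 1) i) * X b) (n := 1) (fun i => by
    refine IsHomogeneous.sum _ _ _ fun b _ => ?_
    exact isHomogeneous_C_mul_X _ _)
  rw [one_mul] at h
  exact h

theorem res {F : MvPolynomial (Fin n) K} {d j : ℕ} (hF : F.IsHomogeneous d)
    {Λ : Submodule K (Fin n → K)} (hΛ : ∀ i < j, ∀ x ∈ Λ, ∀ y, T F i x y = 0)
    (b : Basis (Fin (finrank K Λ)) K Λ) (y : Fin n → K) :
    ∃ R : MvPolynomial (Fin (finrank K Λ + 1)) K, R.IsHomogeneous (d - j) ∧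
      R ∣ pull (iot b y) F ∧
      ∀ c, eval (Fin.cons 0 c : Fin (finrank K Λ + 1) → K) R
        = T F j (∑ a, c a • (b a : Fin n → K)) y := by
  set P := pull (iot b y) F with hP
  set Q := finSuccEquiv K (finrank K Λ) P with hQ
  have hmem : ∀ c : Fin (finrank K Λ) → K, ∑ a, c a • (b a : Fin n → K) ∈ Λ := fun c =>
    Λ.sum_mem fun a _ => Λ.smul_mem _ (b a).2
  have hcoef : ∀ (i : ℕ) (c : Fin (finrank K Λ) → K),
      eval c (Q.coeff i) = T F i (∑ a, c a • (b a : Fin n → K)) y := by
    intro i c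
    have h1 : Q.map (eval c) = TP F (∑ a, c a • (b a : Fin n → K)) y := by
      apply Polynomial.funext
      intro s
      rw [TP_eval, hQ, ← eval_eq_eval_mv_eval', hP, eval_pull, iot_cons]
      have e : (fun i => (∑ a, c a • (b a : Fin n → K)) i + y i * s)
          = s • y + ∑ a, c a • (b a : Fin n → K) := by
        funext i
        simp
        ring
      rw [e]
      rfl
    rw [T, ← h1, Polynomial.coeff_map]
  have hdvd : Polynomial.X ^ j ∣ Q := by
    rw [Polynomial.X_pow_dvd_iff]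
    intro i hi
    apply MvPolynomial.funext
    intro c
    rw [hcoef, hΛ i hi _ (hmem c), map_zero]
  obtain ⟨Q', hQ'⟩ := hdvd
  refine ⟨(finSuccEquiv K (finrank K Λ)).symm Q', ?_, ?_, ?_⟩
  · have hPR : P = X 0 ^ j * (finSuccEquiv K (finrank K Λ)).symm Q' := by
      apply (finSuccEquiv K (finrank K Λ)).injective
      rw [map_mul, map_pow, finSuccEquiv_X_zero, AlgEquiv.apply_symm_apply, ← hQ, hQ']
    have hPh : P.IsHomogeneous d := pull_hom _ hF
    intro s hs
    have h1 : coeff (Finsupp.single 0 j + s) P ≠ 0 := by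
      rw [hPR, X_pow_eq_monomial, coeff_monomial_mul, one_mul]
      exact hs
    have h2 := hPh h1
    rw [map_add] at h2
    have h3 : (Finsupp.weight (1 : Fin (finrank K Λ + 1) → ℕ)) (Finsupp.single 0 j) = j := by
      simp [Finsupp.weight_apply]
    omega
  · refine ⟨X 0 ^ j, ?_⟩
    apply (finSuccEquiv K (finrank K Λ)).injective
    rw [map_mul, map_pow, finSuccEquiv_X_zero, AlgEquiv.apply_symm_apply, ← hQ, hQ', mul_comm]
  · intro c
    rw [eval_eq_eval_mv_eval', AlgEquiv.apply_symm_apply, ← Polynomial.coeff_zero_eq_eval_zero,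
      Polynomial.coeff_map, ← hcoef, hQ', mul_comm, Polynomial.coeff_mul_X_pow']
    simp

end Pool.Agent.Helper38.PAC
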