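import Pool.Agent.Helper38.PAC.Opn
import Pool.Agent.Helper38.PAC.Res
import Pool.Agent.Helper38.PAC.Fac
import Pool.Agent.Helper38.PAC.Brauer

/-!
# Project QF: the main theorem over fields closed under radicals
-/

set_option autoImplicit false

namespace Pool.Agent.Helper38.PAC

open Finset Module MvPolynomial
open Pool.Agent.Helper65.PAC (shift shiftE Rt lin)

section Base

variable {K : Type*} [Field K] {n : ℕ}

theorem prod_mem_lin (s : Finset (Fin n)) (e : Fin n → ℕ) :
    (fun x : Fin n → K => ∏ i ∈ s, x i ^ e i) ∈ (lin K (Fin n → K)) ^ (∑ i ∈ s, e i) := by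
  induction s using Finset.induction_on with
  | empty => simpa using Helper65.PAC.const_mem (V := Fin n → K) (1 : K)
  | insert a s ha ih =>
    rw [Finset.sum_insert ha]
    have h1 : (fun x : Fin n → K => x a ^ e a) ∈ (lin K (Fin n → K)) ^ (e a) := by
      have : ((fun x : Fin n → K => x a) : (Fin n → K) → K) ∈ lin K (Fin n → K) :=
        ⟨LinearMap.proj a, rfl⟩
      exact Submodule.pow_mem_pow _ this _
    have h2 := Helper65.PAC.mul_mem' h1 ih
    have e2 : (fun x : Fin n → K => ∏ i ∈ insert a s, x i ^ e i)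
        = (fun x : Fin n → K => x a ^ e a) * (fun x : Fin n → K => ∏ i ∈ s, x i ^ e i) := by
      funext x
      simp [Finset.prod_insert ha]
    rw [e2]
    exact h2

theorem eval_mem_lin {d : ℕ} {f : MvPolynomial (Fin n) K} (hf : f.IsHomogeneous d) :
    (fun x : Fin n → K => MvPolynomial.eval x f) ∈ (lin K (Fin n → K)) ^ d := by
  have e : (fun x : Fin n → K => MvPolynomial.eval x f)
      = ∑ m ∈ f.support, (f.coeff m) • (fun x : Fin n → K => ∏ i ∈ m.support, x i ^ m i) := by
    funext x
    rw [MvPolynomial.eval_eq]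
    simp
  rw [e]
  refine Submodule.sum_mem _ fun m hm => Submodule.smul_mem _ _ ?_
  have hd : ∑ i ∈ m.support, m i = d := by
    have := hf (MvPolynomial.mem_support_iff.mp hm)
    rw [Finsupp.weight_apply] at this
    simpa [Finsupp.sum] using this
  rw [← hd]
  exact prod_mem_lin _ _

/-- Invariance under one vector implies invariance under its multiples. -/
theorem inv_smul [CharZero K] {F : MvPolynomial (Fin n) K}
    {w : Fin n → K} (hw : ∀ y, MvPolynomial.eval (y + w) F = MvPolynomial.eval y F) (c : K)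
    (y : Fin n → K) : MvPolynomial.eval (y + c • w) F = MvPolynomial.eval y F := by
  have hnat : ∀ (m : ℕ) (y : Fin n → K),
      MvPolynomial.eval ((m : K) • w + y) F = MvPolynomial.eval y F := by
    intro m
    induction m with
    | zero => intro y; simp
    | succ m ih =>
      intro y
      have e : ((m + 1 : ℕ) : K) • w + y = ((m : K) • w + y) + w := by
        push_cast
        rw [add_smul, one_smul]
        abel
      rw [e, hw, ih]
  have hz : (shift w F).map (MvPolynomial.eval y) - Polynomial.C (MvPolynomial.eval y F) = 0 := by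
    apply Polynomial.eq_zero_of_infinite_isRoot
    apply Set.Infinite.mono (s := Set.range (fun m : ℕ => (m : K)))
    · rintro _ ⟨m, rfl⟩
      show Polynomial.eval _ _ = 0
      rw [Polynomial.eval_sub, Helper65.PAC.eval_shift, Polynomial.eval_C, hnat, sub_self]
    · exact Set.infinite_range_of_injective Nat.cast_injective
  have e := congrArg (Polynomial.eval c) hz
  rw [Polynomial.eval_sub, Helper65.PAC.eval_shift, Polynomial.eval_C, Polynomial.eval_zero] at e
  rw [add_comm y, sub_eq_zero.mp e]

/-- The vertex space of a polynomial. -/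
def vert [CharZero K] (F : MvPolynomial (Fin n) K) : Submodule K (Fin n → K) where
  carrier := {w | ∀ y, MvPolynomial.eval (y + w) F = MvPolynomial.eval y F}
  add_mem' := by
    intro a b ha hb y
    rw [← add_assoc, hb, ha]
  zero_mem' := by
    intro y
    rw [add_zero]
  smul_mem' := by
    intro c w hw y
    exact inv_smul hw c y

/-- `F` is invariant under a subspace of codimension at most `N`. -/
def Few (F : MvPolynomial (Fin n) K) (N : ℕ) : Prop :=
  ∃ W : Submodule K (Fin n → K), n ≤ finrank K W + N ∧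
    ∀ w ∈ W, ∀ x, eval (x + w) F = eval x F

end Base

variable {K : Type} [Field K] [CharZero K]

/-- A nonzero vector in the vertex space. -/
theorem mem_vert_of_T {n : ℕ} {F : MvPolynomial (Fin n) K} {d : ℕ} (hF : F.IsHomogeneous d)
    {x : Fin n → K} (h : ∀ i < d, ∀ y, T F i x y = 0) : x ∈ vert F := by
  intro y
  have h1 := T_expand (A := K) hF.totalDegree_le x y 1
  rw [Finset.sum_range_succ, Finset.sum_eq_zero (fun i hi => by
    rw [h i (Finset.mem_range.mp hi) y, zero_mul]), T_rev hF d le_rfl, Nat.sub_self,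
    T_zero_index] at h1
  have e : (fun i => x i + y i * 1) = y + x := by
    funext i
    simp [add_comm]
  rw [e, zero_add, one_pow, mul_one] at h1
  exact h1

/-- The case of small residual degree. -/
theorem case_small {n : ℕ} (r1 : Rt K 1) (r2 : Rt K 2) (r3 : Rt K 3) (r4 : Rt K 4)
    {F : MvPolynomial (Fin n) K} {d j : ℕ} (hF : F.IsHomogeneous d) (hirr : Irreducible F)
    (hj : d ≤ j + 4) {x : Fin n → K} (hx : ∀ i < j, ∀ y, T F i x y = 0) (hv : x ∉ vert F) :
    Dn F := by
  refine D4 r1 r2 r3 r4 hirr x ?_ ?_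
  · intro h0
    apply hv
    intro y
    obtain ⟨r, hr⟩ := Polynomial.natDegree_eq_zero.mp h0
    have e1 := Helper65.PAC.eval_shift x y 1 F
    have e0 := Helper65.PAC.eval_shift x y 0 F
    rw [← hr] at e1 e0
    simp only [Polynomial.map_C, Polynomial.eval_C, one_smul, zero_smul, zero_add] at e1 e0
    rw [add_comm, ← e1, ← e0]
  · rw [Polynomial.natDegree_le_iff_coeff_eq_zero]
    intro N hN
    apply MvPolynomial.funext
    intro Q
    rw [eval_coeff_shift, map_zero]
    by_cases hNd : N ≤ d
    · rw [T_rev hF N hNd]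
      exact hx _ (by omega) _
    · exact T_gt (lt_of_le_of_lt hF.totalDegree_le (by omega)) _ _

theorem iot_injOn {n : ℕ} {Λ : Submodule K (Fin n → K)} (b : Basis (Fin (finrank K Λ)) K Λ)
    (y : Fin n → K) {c : Fin (finrank K Λ + 1) → K} (h0 : c 0 = 0) (h : iot b y c = 0) : c = 0 := by
  have h1 : ∑ a, c (Fin.succ a) • (b a : Fin n → K) = 0 := by
    have : iot b y c = c 0 • y + ∑ a, c (Fin.succ a) • (b a : Fin n → K) := rfl
    rw [this, h0, zero_smul, zero_add] at h
    exact h
  have h2 : ∑ a, c (Fin.succ a) • b a = 0 := by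
    apply Subtype.ext
    rw [Submodule.coe_sum]
    simpa using h1
  have h3 := Fintype.linearIndependent_iff.mp b.linearIndependent _ h2
  funext i
  refine Fin.cases h0 (fun a => h3 a) i

/-- The few variables alternative for the residual form is impossible. -/
theorem not_few {n : ℕ} {F : MvPolynomial (Fin n) K} {j k : ℕ} {Λ : Submodule K (Fin n → K)}
    (b : Basis (Fin (finrank K Λ)) K Λ) (y : Fin n → K)
    (hsmall : finrank K (VS F j Λ y) + k < finrank K Λ)
    {R : MvPolynomial (Fin (finrank K Λ + 1)) K}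
    (hR : ∀ c, eval (Fin.cons 0 c : Fin (finrank K Λ + 1) → K) R
        = T F j (∑ a, c a • (b a : Fin n → K)) y) : ¬ Few R k := by
  rintro ⟨W, hW, hinv⟩
  let φ : (Fin (finrank K Λ + 1) → K) →ₗ[K] K := LinearMap.proj 0
  let W0 : Submodule K (Fin (finrank K Λ + 1) → K) := W ⊓ LinearMap.ker φ
  have h1 := finrank_inf_ker_le W φ
  have hmap : W0.map (iot b y) ≤ VS F j Λ y := by
    rintro _ ⟨w, ⟨hw, hw0⟩, rfl⟩
    have hw0' : w 0 = 0 := LinearMap.mem_ker.mp hw0
    have he : iot b y w = ∑ a, w (Fin.succ a) • (b a : Fin n → K) := by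
      have : iot b y w = w 0 • y + ∑ a, w (Fin.succ a) • (b a : Fin n → K) := rfl
      rw [this, hw0', zero_smul, zero_add]
    apply VS_mem
    · rw [he]
      exact Λ.sum_mem fun a _ => Λ.smul_mem _ (b a).2
    · intro x hx t
      have hxe : x = ∑ a, b.repr ⟨x, hx⟩ a • (b a : Fin n → K) := by
        calc x = ((∑ c, b.repr ⟨x, hx⟩ c • b c : Λ) : Fin n → K) := by rw [b.sum_repr]
          _ = _ := by
            rw [Submodule.coe_sum]
            refine Finset.sum_congr rfl fun c _ => ?_
            rw [Submodule.coe_smul]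
      have h2 := hR (fun a => b.repr ⟨x, hx⟩ a + t * w (Fin.succ a))
      have h3 := hR (fun a => b.repr ⟨x, hx⟩ a)
      have h4 := hinv (t • w) (W.smul_mem t hw) (Fin.cons 0 (fun a => b.repr ⟨x, hx⟩ a))
      have h5 : (Fin.cons 0 (fun a => b.repr ⟨x, hx⟩ a) : Fin (finrank K Λ + 1) → K) + t • w
          = Fin.cons 0 (fun a => b.repr ⟨x, hx⟩ a + t * w (Fin.succ a)) := by
        funext i
        refine Fin.cases ?_ (fun a => ?_) i
        · simp [hw0']
        · simp
      rw [h5, h2, h3, ← hxe] at h4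
      rw [← h4, he]
      congr 1
      simp only [add_smul, Finset.sum_add_distrib, mul_smul, Finset.smul_sum]
      rw [← hxe]
  have hfr : finrank K (W0.map (iot b y)) = finrank K W0 := by
    have hinj : Function.Injective ((iot b y).domRestrict W0) := by
      rw [← LinearMap.ker_eq_bot, Submodule.eq_bot_iff]
      rintro ⟨w, hw, hw0⟩ hw'
      apply Subtype.ext
      exact iot_injOn b y (LinearMap.mem_ker.mp hw0) (LinearMap.mem_ker.mp hw')
    rw [← LinearMap.range_domRestrict]
    exact LinearMap.finrank_range_of_inj hinj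
  have h2 := Submodule.finrank_mono hmap
  have h3 : finrank K W ≤ finrank K W0 + 1 := h1
  omega

theorem main (rad : Rad K) (r1 : Rt K 1) (r2 : Rt K 2) (r3 : Rt K 3) (r4 : Rt K 4) :
    ∀ d ≤ 9, ∃ N, ∀ (n : ℕ) (F : MvPolynomial (Fin n) K), F.IsHomogeneous d → Irreducible F →
      Few F N ∨ Dn F := by
  intro d
  induction d using Nat.strong_induction_on with
  | _ d ih =>
    intro hd9
    rcases Nat.eq_zero_or_pos d with rfl | hd
    · refine ⟨0, fun n F hF hirr => absurd ?_ (totalDegree_pos_of_irreducible hirr)⟩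
      exact hF.totalDegree hirr.ne_zero
    choose! Nf hNf using ih
    set k := (range d).sup Nf with hk
    obtain ⟨N0, hN0⟩ := van_all.{0, 0} rad d hd (1 + (d - 1) * k)
    refine ⟨N0, fun n F hF hirr => ?_⟩
    by_cases hn : n ≤ finrank K (vert F) + N0
    · exact Or.inl ⟨vert F, hn, fun w hw => hw⟩
    right
    obtain ⟨V', hV'⟩ := Submodule.exists_isCompl (vert F)
    have hdim : N0 ≤ finrank K V' := by
      have := Submodule.finrank_add_eq_of_isCompl hV'
      rw [Module.finrank_fin_fun] at this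
      omega
    have hnv : ∀ x ∈ V', x ≠ 0 → x ∉ vert F := by
      intro x hx hx0 hxv
      exact hx0 ((Submodule.disjoint_def.mp hV'.disjoint) x hxv hx)
    let P : ℕ → Prop := fun j => ∃ Λ : Submodule K (Fin n → K), Λ ≤ V' ∧
      1 + (d - j) * k ≤ finrank K Λ ∧ ∀ i < j, ∀ x ∈ Λ, ∀ y, T F i x y = 0
    have hP1 : P 1 := by
      obtain ⟨Λ, hΛ, hΛr, hΛz⟩ := hN0 (Fin n → K) V' hdim _ (eval_mem_lin hF)
      refine ⟨Λ, hΛ, hΛr, fun i hi x hx y => ?_⟩
      obtain rfl : i = 0 := by omega
      rw [T_zero_index]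
      exact hΛz x hx
    have hne : ∀ Λ : Submodule K (Fin n → K), 1 ≤ finrank K Λ → ∃ x ∈ Λ, x ≠ 0 := by
      intro Λ hΛ
      by_contra hcon
      push Not at hcon
      have : Λ = ⊥ := (Submodule.eq_bot_iff Λ).mpr hcon
      rw [this, finrank_bot] at hΛ
      omega
    have hPd : ¬ P d := by
      rintro ⟨Λ, hΛ, hΛr, hΛz⟩
      obtain ⟨x, hx, hx0⟩ := hne Λ (by omega)
      exact hnv x (hΛ hx) hx0 (mem_vert_of_T hF fun i hi y => hΛz i hi x hx y)
    obtain ⟨j, hj1, hjd, hPj, hPj1⟩ : ∃ j, 1 ≤ j ∧ j < d ∧ P j ∧ ¬ P (j + 1) := by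
      by_contra hcon
      push Not at hcon
      have hall : ∀ m, 1 ≤ m → m ≤ d → P m := by
        intro m hm
        induction m, hm using Nat.le_induction with
        | base => intro _; exact hP1
        | succ m hm ihm => intro hmd; exact hcon m hm (by omega) (ihm (by omega))
      exact hPd (hall d hd le_rfl)
    obtain ⟨Λ, hΛV, hΛr, hΛz⟩ := hPj
    obtain ⟨x0, hx0, hx00⟩ := hne Λ (by omega)
    by_cases he4 : d ≤ j + 4
    · exact case_small r1 r2 r3 r4 hF hirr he4 (fun i hi y => hΛz i hi x0 hx0 y)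
        (hnv x0 (hΛV hx0) hx00)
    push Not at he4
    obtain ⟨y₁, hy₁⟩ : ∃ y₁, finrank K (VS F j Λ y₁) + k < finrank K Λ := by
      by_contra hcon
      push Not at hcon
      obtain ⟨N, hN, hNr, hNz⟩ := claim hF (by omega) hcon
      apply hPj1
      refine ⟨N, hN.trans hΛV, ?_, fun i hi x hx y => ?_⟩
      · have e : d - j = (d - (j + 1)) + 1 := by omega
        rw [e, add_mul, one_mul] at hΛr
        omega
      · rcases Nat.lt_succ_iff_lt_or_eq.mp hi with h | rfl
        · exact hΛz i h x (hN hx) y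
        · exact hNz y x hx
    obtain ⟨E, e₁, hE, he₁, hEy⟩ := opn y₁ hy₁
    refine sec hirr e₁ ?_ ?_
    · intro h0
      obtain ⟨y, hy⟩ := Helper65.PAC.exists_eval_ne_zero hE
      apply (hEy y hy).2
      rw [T_rev hF j hjd.le, ← eval_coeff_shift, Polynomial.coeff_eq_zero_of_natDegree_lt, map_zero]
      omega
    · intro r hr
      obtain ⟨y, hy⟩ := Helper65.PAC.exists_eval_ne_zero (mul_ne_zero hr hE)
      rw [map_mul] at hy
      have hyr := left_ne_zero_of_mul hy
      obtain ⟨hys, hyT⟩ := hEy y (right_ne_zero_of_mul hy)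
      let b := finBasis K Λ
      obtain ⟨R, hRh, hRd, hRe⟩ := res hF hΛz b y
      let c₁ : Fin (finrank K Λ) → K := fun a => b.repr ⟨e₁, he₁⟩ a
      have he₁e : ∑ a, c₁ a • (b a : Fin n → K) = e₁ := by
        calc ∑ a, c₁ a • (b a : Fin n → K)
            = ((∑ a, b.repr ⟨e₁, he₁⟩ a • b a : Λ) : Fin n → K) := by
              rw [Submodule.coe_sum]
              refine Finset.sum_congr rfl fun c _ => ?_
              rw [Submodule.coe_smul]
          _ = e₁ := by rw [b.sum_repr]
      have hRp : eval (Fin.cons 0 c₁ : Fin (finrank K Λ + 1) → K) R ≠ 0 := by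
        rw [hRe, he₁e]
        exact hyT
      obtain ⟨ρ, hρ, hρR, hρn, hρ4⟩ := fac hRh (by omega) (by omega) _ hRp
      refine ⟨finrank K Λ + 1, iot b y, Fin.cons 0 c₁, ρ, ?_, ?_, hρ, hρR.trans hRd, ?_, hρn⟩
      · rw [iot_cons, zero_smul, zero_add, he₁e]
      · intro h0
        apply hyr
        have h1 := eval_pull (iot b y) r (Fin.cons 1 0)
        rw [h0, map_zero, iot_cons] at h1
        simpa using h1.symm
      · rcases hρ4 with h4 | rfl
        · exact D4 r1 r2 r3 r4 hρ _ hρn ((natDegree_shift_le _ _).trans h4)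
        · rcases hNf (d - j) (by omega) (by omega) _ _ hRh hρ with hfew | hdn
          · exfalso
            refine not_few b y hys hRe ?_
            obtain ⟨W, hW, hinv⟩ := hfew
            refine ⟨W, ?_, hinv⟩
            have : Nf (d - j) ≤ k := Finset.le_sup (f := Nf) (Finset.mem_range.mpr (by omega))
            omega
          · exact hdn

end Pool.Agent.Helper38.PAC
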