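import Pool.Agent.Helper38.PAC.Claim

/-!
# Project QF: openness of the condition on the vertex space
-/

set_option autoImplicit false

namespace Pool.Agent.Helper38.PAC

open Finset Module MvPolynomial

variable {K : Type*} [Field K] [CharZero K] {n : ℕ}

theorem T_eval_gen (F : MvPolynomial (Fin n) K) (j : ℕ) (x y : Fin n → K) :
    eval y (T F j (fun i => (C (x i) : MvPolynomial (Fin n) K)) X) = T F j x y := by
  have h := T_map (aeval y : MvPolynomial (Fin n) K →ₐ[K] K) F j
    (fun i => (C (x i) : MvPolynomial (Fin n) K)) X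
  have e : (aeval y : MvPolynomial (Fin n) K →ₐ[K] K)
      (T F j (fun i => (C (x i) : MvPolynomial (Fin n) K)) X)
      = eval y (T F j (fun i => (C (x i) : MvPolynomial (Fin n) K)) X) := by
    rw [aeval_def]
    rfl
  rw [← e, h]
  congr 1
  · funext i
    simp
  · funext i
    simp

theorem opn {F : MvPolynomial (Fin n) K} {j k : ℕ} {Λ : Submodule K (Fin n → K)}
    (y₁ : Fin n → K) (h : finrank K (VS F j Λ y₁) + k < finrank K Λ) :
    ∃ (E : MvPolynomial (Fin n) K) (e₁ : Fin n → K), E ≠ 0 ∧ e₁ ∈ Λ ∧ ∀ y, eval y E ≠ 0 →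
      finrank K (VS F j Λ y) + k < finrank K Λ ∧ T F j e₁ y ≠ 0 := by
  obtain ⟨W, hW, hWr, b, x, hx, hdet⟩ := exists_pts (F := F) (j := j) (Λ := Λ) y₁
  obtain ⟨e₁, he₁, he₁T⟩ : ∃ e₁ ∈ Λ, T F j e₁ y₁ ≠ 0 := by
    by_contra hcon
    push Not at hcon
    have hle : Λ ≤ VS F j Λ y₁ := by
      intro v hv
      refine VS_mem hv fun x hx t => ?_
      rw [hcon _ (Λ.add_mem hx (Λ.smul_mem t hv)), hcon x hx]
    have := Submodule.finrank_mono hle
    omega
  let M : Matrix (Fin (finrank K W)) (Fin (finrank K W)) (MvPolynomial (Fin n) K) :=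
    Matrix.of fun a c => ∑ i, C ((b c : Fin n → K) i) *
      T (pderiv i F) j (fun i => (C (x a i) : MvPolynomial (Fin n) K)) X
  have hMeval : ∀ y : Fin n → K, eval y M.det
      = (Matrix.of fun a c => DT F j (b c : Fin n → K) (x a) y).det := by
    intro y
    rw [RingHom.map_det (eval y) M]
    congr 1
    ext a c
    simp only [M, RingHom.mapMatrix_apply, Matrix.map_apply, Matrix.of_apply, map_sum, map_mul,
      eval_C, T_eval_gen, DT]
  refine ⟨M.det * T F j (fun i => (C (e₁ i) : MvPolynomial (Fin n) K)) X, e₁, ?_, he₁, ?_⟩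
  · intro h0
    have := congrArg (eval y₁) h0
    rw [map_mul, hMeval, T_eval_gen, map_zero] at this
    rcases mul_eq_zero.mp this with h1 | h1
    · exact hdet h1
    · exact he₁T h1
  · intro y hy
    rw [map_mul, hMeval, T_eval_gen] at hy
    refine ⟨?_, right_ne_zero_of_mul hy⟩
    have h1 := finrank_ker_le (Λ := Λ) hW b x y (left_ne_zero_of_mul hy)
    have h2 := Submodule.finrank_mono (VS_le_ker (F := F) (j := j) (Λ := Λ) x hx y)
    omega

end Pool.Agent.Helper38.PAC
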