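import Pool.Agent.Helper38.PAC.Def

/-!
# Project QF: density of zeros from sections
-/

set_option autoImplicit false

namespace Pool.Agent.Helper38.PAC

open Finset Module MvPolynomial
open Pool.Agent.Helper65.PAC (shift shiftE Rt)

variable {K : Type*} [Field K] {n : ℕ}

/-- The `K`-zeros of `F` are dense in the zero set. -/
def Dn (F : MvPolynomial (Fin n) K) : Prop :=
  ∀ G : MvPolynomial (Fin n) K, ¬ F ∣ G → ∃ x, eval x F = 0 ∧ eval x G ≠ 0

/-- Composition with a linear map. -/
noncomputable def pull {m : ℕ} (ι : (Fin m → K) →ₗ[K] (Fin n → K)) :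
    MvPolynomial (Fin n) K →ₐ[K] MvPolynomial (Fin m) K :=
  aeval (fun i => ∑ b, C (ι (Pi.single b 1) i) * X b)

theorem eval_pull {m : ℕ} (ι : (Fin m → K) →ₗ[K] (Fin n → K)) (F : MvPolynomial (Fin n) K)
    (x : Fin m → K) : eval x (pull ι F) = eval (ι x) F := by
  have h : (eval x : MvPolynomial (Fin m) K →+* K).comp (pull ι : MvPolynomial (Fin n) K →+* _)
      = (eval (ι x) : MvPolynomial (Fin n) K →+* K) := by
    apply MvPolynomial.ringHom_ext
    · intro r
      simp [pull]
    · intro i
      simp only [pull, RingHom.comp_apply, RingHom.coe_coe, aeval_X, map_sum, map_mul, eval_C,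
        eval_X]
      have e : ι x = ∑ b, x b • ι (Pi.single b 1) := by
        rw [LinearMap.pi_apply_eq_sum_univ ι x]
        refine Finset.sum_congr rfl fun b _ => ?_
        congr 2
        funext c
        simp [Pi.single_apply, eq_comm]
      rw [e, Finset.sum_apply]
      refine Finset.sum_congr rfl fun b _ => ?_
      rw [Pi.smul_apply, smul_eq_mul, mul_comm]
  exact congrArg (fun f : MvPolynomial (Fin n) K →+* K => f F) h

/-- An irreducible polynomial which has degree between 1 and 4 in some direction has dense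
zeros. -/
theorem D4 [Infinite K] (r1 : Rt K 1) (r2 : Rt K 2) (r3 : Rt K 3) (r4 : Rt K 4)
    {F : MvPolynomial (Fin n) K} (hF : Irreducible F) (x : Fin n → K)
    (hdeg0 : (shift x F).natDegree ≠ 0) (hdeg4 : (shift x F).natDegree ≤ 4) : Dn F := by
  intro G hFG
  set P := shift x F with hP
  have hprime : Prime P := Helper65.PAC.shift_prime x hF
  obtain ⟨r, A, B, hr0, hAB⟩ := Helper65.PAC.bezout hprime.irreducible hdeg0
    (Helper65.PAC.shift_not_dvd x hFG)
  have hlc : P.leadingCoeff ≠ 0 := Polynomial.leadingCoeff_ne_zero.mpr hprime.ne_zero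
  obtain ⟨Q, hQ⟩ := Helper65.PAC.exists_eval_ne_zero (mul_ne_zero hr0 hlc)
  rw [map_mul] at hQ
  have hQr := left_ne_zero_of_mul hQ
  have hQl := right_ne_zero_of_mul hQ
  have hroot : ∃ s : K, Polynomial.eval s (P.map (MvPolynomial.eval Q)) = 0 := by
    have hnd : (P.map (MvPolynomial.eval Q)).natDegree = P.natDegree :=
      Polynomial.natDegree_map_of_leadingCoeff_ne_zero _ hQl
    have hRt : Rt K P.natDegree := by
      have : P.natDegree = 1 ∨ P.natDegree = 2 ∨ P.natDegree = 3 ∨ P.natDegree = 4 := by omega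
      rcases this with h | h | h | h <;> rw [h] <;> assumption
    obtain ⟨s, hs⟩ := hRt (fun k => (P.map (MvPolynomial.eval Q)).coeff k) (by
      rw [Polynomial.coeff_map]
      exact hQl)
    refine ⟨s, ?_⟩
    rw [Polynomial.eval_eq_sum_range, hnd, ← hs]
    refine Finset.sum_congr rfl fun k _ => ?_
    ring
  obtain ⟨s, hs⟩ := hroot
  refine ⟨s • x + Q, ?_, ?_⟩
  · rw [← Helper65.PAC.eval_shift, ← hP, hs]
  · intro hG
    rw [← Helper65.PAC.eval_shift] at hG
    have e := congrArg (fun p => Polynomial.eval s (p.map (MvPolynomial.eval Q))) hAB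
    simp only [Polynomial.map_add, Polynomial.map_mul, Polynomial.eval_add, Polynomial.eval_mul,
      Polynomial.map_C, Polynomial.eval_C] at e
    rw [hs, hG] at e
    simp only [mul_zero, add_zero] at e
    exact hQr e.symm

/-- Density from sections. -/
theorem sec [Infinite K] {F : MvPolynomial (Fin n) K} (hF : Irreducible F) (e1 : Fin n → K)
    (h0 : (shift e1 F).natDegree ≠ 0)
    (H : ∀ r : MvPolynomial (Fin n) K, r ≠ 0 → ∃ (m : ℕ) (ι : (Fin m → K) →ₗ[K] (Fin n → K))
      (e : Fin m → K) (ρ : MvPolynomial (Fin m) K), ι e = e1 ∧ pull ι r ≠ 0 ∧ Irreducible ρ ∧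
      ρ ∣ pull ι F ∧ Dn ρ ∧ (shift e ρ).natDegree ≠ 0) : Dn F := by
  intro G hFG
  have hprime : Prime (shift e1 F) := Helper65.PAC.shift_prime e1 hF
  obtain ⟨r, A, B, hr0, hAB⟩ := Helper65.PAC.bezout hprime.irreducible h0
    (Helper65.PAC.shift_not_dvd e1 hFG)
  obtain ⟨m, ι, e, ρ, hιe, hr, hρ, hρF, hD, hnd⟩ := H r hr0
  -- some coefficient of `r (u - t e)` is not divisible by `ρ`
  obtain ⟨k, hk⟩ : ∃ k, ¬ ρ ∣ (shift (-e) (pull ι r)).coeff k := by
    by_contra hcon
    push Not at hcon
    have h1 : Polynomial.C ρ ∣ shift (-e) (pull ι r) :=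
      (Polynomial.C_dvd_iff_dvd_coeff _ _).mpr hcon
    have h2 : shiftE e (Polynomial.C ρ) ∣ shiftE e (shift (-e) (pull ι r)) := map_dvd _ h1
    have h3 : shiftE e (shift (-e) (pull ι r)) = Polynomial.C (pull ι r) := by
      rw [← Helper65.PAC.shiftE_C (-e)]
      exact RingHom.congr_fun (Helper65.PAC.shiftP_comp e) (Polynomial.C (pull ι r))
    rw [h3, Helper65.PAC.shiftE_C] at h2
    have h4 : Polynomial.C (pull ι r) ≠ 0 := Polynomial.C_ne_zero.mpr hr
    have h5 := Polynomial.natDegree_le_of_dvd h2 h4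
    rw [Polynomial.natDegree_C] at h5
    omega
  obtain ⟨u, hu1, hu2⟩ := hD _ hk
  -- choose `t`
  obtain ⟨t, ht⟩ : ∃ t : K, eval (t • (-e) + u) (pull ι r) ≠ 0 := by
    by_contra hcon
    push Not at hcon
    apply hu2
    have h1 : (shift (-e) (pull ι r)).map (eval u) = 0 := by
      apply Polynomial.funext
      intro t
      rw [Helper65.PAC.eval_shift, hcon, Polynomial.eval_zero]
    have := congrArg (fun p => Polynomial.coeff p k) h1
    simpa using this
  rw [eval_pull] at ht
  have hFu : eval (ι u) F = 0 := by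
    obtain ⟨c, hc⟩ := hρF
    rw [← eval_pull, hc, map_mul, hu1, zero_mul]
  refine ⟨ι u, hFu, fun hG => ht ?_⟩
  have key := congrArg (fun p => Polynomial.eval t (p.map (eval (ι (t • (-e) + u))))) hAB
  simp only [Polynomial.map_add, Polynomial.map_mul, Polynomial.eval_add, Polynomial.eval_mul,
    Polynomial.map_C, Polynomial.eval_C] at key
  rw [Helper65.PAC.eval_shift, Helper65.PAC.eval_shift] at key
  have e2 : t • e1 + ι (t • (-e) + u) = ι u := by
    rw [map_add, map_smul, map_neg, hιe, smul_neg]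
    abel
  rw [e2, hFu, hG, mul_zero, mul_zero, add_zero] at key
  exact key.symm

end Pool.Agent.Helper38.PAC
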