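import Pool.Agent.Helper38.PAC.Def

/-!
# Project QF: vertex spaces of the leading forms
-/

set_option autoImplicit false

namespace Pool.Agent.Helper38.PAC

open Finset Module MvPolynomial

variable {K : Type*} [Field K] {n : ℕ}

/-- Directional derivative of the Taylor coefficient. -/
noncomputable def DT (F : MvPolynomial (Fin n) K) (j : ℕ) (w x y : Fin n → K) : K :=
  ∑ i, w i * T (pderiv i F) j x y

theorem DT_add (F : MvPolynomial (Fin n) K) (j : ℕ) (w w' x y : Fin n → K) :
    DT F j (w + w') x y = DT F j w x y + DT F j w' x y := by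
  simp [DT, add_mul, Finset.sum_add_distrib]

theorem DT_smul (F : MvPolynomial (Fin n) K) (j : ℕ) (c : K) (w x y : Fin n → K) :
    DT F j (c • w) x y = c * DT F j w x y := by
  simp [DT, Finset.mul_sum, mul_assoc]

/-- The vertex space of `c_y` restricted to `Λ`. -/
def VS (F : MvPolynomial (Fin n) K) (j : ℕ) (Λ : Submodule K (Fin n → K)) (y : Fin n → K) :
    Submodule K (Fin n → K) where
  carrier := {w | w ∈ Λ ∧ ∀ x ∈ Λ, DT F j w x y = 0}
  add_mem' := by
    rintro a b ⟨ha, ha'⟩ ⟨hb, hb'⟩
    refine ⟨Λ.add_mem ha hb, fun x hx => ?_⟩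
    rw [DT_add, ha' x hx, hb' x hx, add_zero]
  zero_mem' := by
    refine ⟨Λ.zero_mem, fun x _ => ?_⟩
    simp [DT]
  smul_mem' := by
    rintro c a ⟨ha, ha'⟩
    refine ⟨Λ.smul_mem c ha, fun x hx => ?_⟩
    rw [DT_smul, ha' x hx, mul_zero]

theorem VS_le (F : MvPolynomial (Fin n) K) (j : ℕ) (Λ : Submodule K (Fin n → K))
    (y : Fin n → K) : VS F j Λ y ≤ Λ := fun _ h => h.1

/-- The Taylor coefficient along a line, as a polynomial. -/
noncomputable def LP (F : MvPolynomial (Fin n) K) (j : ℕ) (x v y : Fin n → K) : Polynomial K :=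
  T F j (fun i => Polynomial.C (x i) + Polynomial.C (v i) * Polynomial.X)
    (fun i => Polynomial.C (y i))

theorem LP_eval (F : MvPolynomial (Fin n) K) (j : ℕ) (x v y : Fin n → K) (t : K) :
    Polynomial.eval t (LP F j x v y) = T F j (x + t • v) y := by
  have h := T_map (Polynomial.aeval t : Polynomial K →ₐ[K] K) F j
    (fun i => Polynomial.C (x i) + Polynomial.C (v i) * Polynomial.X)
    (fun i => Polynomial.C (y i))
  rw [Polynomial.coe_aeval_eq_eval] at h
  rw [LP, h]
  congr 1
  · funext i
    simp
    ring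
  · funext i
    simp

theorem LP_deriv_eval (F : MvPolynomial (Fin n) K) (j : ℕ) (x v y : Fin n → K) (t : K) :
    Polynomial.eval t (Polynomial.derivative (LP F j x v y)) = DT F j v (x + t • v) y := by
  rw [LP, T_deriv, Polynomial.eval_finsetSum, DT]
  refine Finset.sum_congr rfl fun k _ => ?_
  rw [Polynomial.eval_mul, Polynomial.eval_C]
  congr 1
  exact LP_eval (pderiv k F) j x v y t

variable [CharZero K]

theorem VS_inv {F : MvPolynomial (Fin n) K} {j : ℕ} {Λ : Submodule K (Fin n → K)}
    {v y : Fin n → K} (hv : v ∈ VS F j Λ y) {x : Fin n → K} (hx : x ∈ Λ) :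
    T F j (x + v) y = T F j x y := by
  have hd : Polynomial.derivative (LP F j x v y) = 0 := by
    apply Polynomial.funext
    intro t
    rw [LP_deriv_eval, Polynomial.eval_zero]
    exact hv.2 _ (Λ.add_mem hx (Λ.smul_mem t hv.1))
  have h0 := Polynomial.derivative_eq_zero.mp hd
  obtain ⟨c, hc⟩ := Polynomial.natDegree_eq_zero.mp h0
  have e1 := LP_eval F j x v y 1
  have e0 := LP_eval F j x v y 0
  rw [← hc, Polynomial.eval_C] at e1 e0
  rw [one_smul] at e1
  rw [zero_smul, add_zero] at e0
  rw [← e1, ← e0]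

theorem VS_mem {F : MvPolynomial (Fin n) K} {j : ℕ} {Λ : Submodule K (Fin n → K)}
    {v y : Fin n → K} (hv : v ∈ Λ)
    (h : ∀ x ∈ Λ, ∀ t : K, T F j (x + t • v) y = T F j x y) : v ∈ VS F j Λ y := by
  refine ⟨hv, fun x hx => ?_⟩
  have hc : LP F j x v y = Polynomial.C (T F j x y) := by
    apply Polynomial.funext
    intro t
    rw [LP_eval, Polynomial.eval_C, h x hx t]
  have e := LP_deriv_eval F j x v y 0
  rw [hc, Polynomial.derivative_C, Polynomial.eval_zero, zero_smul, add_zero] at e
  exact e.symm

omit [CharZero K] in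
/-- Points which detect a space of functions. -/
theorem pts {V X : Type*} [AddCommGroup V] [Module K V] [FiniteDimensional K V]
    (W : Submodule K V) (Φ : V →ₗ[K] (X → K)) (h : ∀ w ∈ W, Φ w = 0 → w = 0) :
    ∃ (b : Basis (Fin (finrank K W)) K W) (x : Fin (finrank K W) → X),
      (Matrix.of fun a c => Φ (b c : V) (x a)).det ≠ 0 := by
  classical
  let b := finBasis K W
  let ev : X → (Fin (finrank K W) → K) := fun x c => Φ (b c : V) x
  have hspan : Submodule.span K (Set.range ev) = ⊤ := by
    by_contra hne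
    obtain ⟨g, hg0, hg⟩ := Submodule.exists_le_ker_of_lt_top _ (lt_top_iff_ne_top.mpr hne)
    apply hg0
    have hα : ∀ x, ∑ c, g (Pi.single c 1) * Φ (b c : V) x = 0 := by
      intro x
      have h1 : g (ev x) = 0 := hg (Submodule.subset_span ⟨x, rfl⟩)
      rw [LinearMap.pi_apply_eq_sum_univ g (ev x)] at h1
      rw [← h1]
      refine Finset.sum_congr rfl fun c _ => ?_
      rw [smul_eq_mul, mul_comm]
      congr 2
      funext i
      simp [Pi.single_apply, eq_comm]
    have h2 : Φ ((∑ c, g (Pi.single c 1) • b c : W) : V) = 0 := by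
      funext x
      have := hα x
      simpa [map_sum, Finset.sum_apply] using this
    have h3 := h _ (∑ c, g (Pi.single c 1) • b c : W).2 h2
    have h4 : (∑ c, g (Pi.single c 1) • b c : W) = 0 := Subtype.ext h3
    have h5 := Fintype.linearIndependent_iff.mp b.linearIndependent _ h4
    apply LinearMap.pi_ext'
    intro c
    apply LinearMap.ext_ring
    simpa using h5 c
  obtain ⟨S, hS, hSspan, hSli⟩ := exists_linearIndependent K (Set.range ev)
  rw [hspan] at hSspan
  let hB : Basis S K (Fin (finrank K W) → K) := Basis.mk hSli (by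
    rw [Subtype.range_coe_subtype]
    simpa using hSspan.ge)
  let e : Fin (finrank K W) ≃ S := (Pi.basisFun K (Fin (finrank K W))).indexEquiv hB
  have hx : ∀ a, ∃ x, ev x = (e a : Fin (finrank K W) → K) := fun a => hS (e a).2
  choose x hx using hx
  refine ⟨b, x, ?_⟩
  have hli : LinearIndependent K (fun a => (e a : Fin (finrank K W) → K)) :=
    hSli.comp e e.injective
  have hrow : LinearIndependent K (Matrix.of fun a c => Φ (b c : V) (x a)).row := by
    have : (Matrix.of fun a c => Φ (b c : V) (x a)).row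
        = (fun a => (e a : Fin (finrank K W) → K)) := by
      funext a
      exact hx a
    rw [this]
    exact hli
  have hu := Matrix.linearIndependent_rows_iff_isUnit.mp hrow
  exact ((Matrix.isUnit_iff_isUnit_det _).mp hu).ne_zero

end Pool.Agent.Helper38.PAC
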